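import Pool.Agent.H56.CV.AFb
import Pool.Agent.Ratios.Contour

/-!
# The first approximate functional equation (module AF1)
-/

set_option autoImplicit false

open NumberField NumberField.InfinitePlace Complex MeasureTheory Set Filter Topology

namespace Pool.Agent.H56.CV

open Pool.Agent.H37.CV Pool.Agent.H28.RC Pool.Agent.H25.HK

section

variable {K : Type} [Field K] [NumberField K]

theorem cnd_pos (χ : RCC K) : 0 < cnd K χ.f := by
  unfold cnd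
  exact mul_pos (abs_pos.2 (by exact_mod_cast discr_ne_zero K)) (nm_pos ⟨χ.f, χ.f_ne⟩)

/-- `(x / X)⁻ʷ` -/
theorem div_cpow' {x X : ℝ} (hx : 0 < x) (hX : 0 < X) (w : ℂ) :
    ((x / X : ℝ) : ℂ) ^ (-w) = (x : ℂ) ^ (-w) * (X : ℂ) ^ w := by
  rw [Complex.ofReal_div, div_eq_mul_inv, ← Complex.ofReal_inv,
    Complex.mul_cpow_ofReal_nonneg hx.le (inv_nonneg.2 hX.le), Complex.ofReal_inv,
    Complex.inv_cpow _ _ (by
      rw [Complex.arg_ofReal_of_nonneg hX.le]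
      exact Real.pi_pos.ne), Complex.cpow_neg (X : ℂ) w, inv_inv]

theorem cpow_half {x : ℝ} (hx : 0 < x) (w : ℂ) :
    ((x ^ (-(1 / 2) : ℝ) : ℝ) : ℂ) * (x : ℂ) ^ (-w) = (x : ℂ) ^ (-(1 / 2 + w)) := by
  rw [Complex.ofReal_cpow hx.le, ← Complex.cpow_add _ _ (by exact_mod_cast hx.ne')]
  congr 1
  push_cast
  ring

/-- the sum as an integral over the line `re = 2` -/
theorem A1_eq (hSH : T_SH) (hZK : T_ZK) (χ : RCC K) {Z : ℂ → ℂ}
    (hZ : IsEnt χ Z) {X : ℝ} (hX : 0 < X) :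
    A1 X χ.ψ = ((1 / (2 * Real.pi) : ℝ) : ℂ) * ∫ t : ℝ, Z (1 / 2 + ((2 : ℝ) + t * I)) *
      (X : ℂ) ^ (((2 : ℝ) : ℂ) + t * I) * (cexp (((2 : ℝ) + t * I) ^ 2) / ((2 : ℝ) + t * I)) := by
  have hcount : Countable (NI K) := NI_countable hZK
  have hg0 := (hSH (fun _ => 1) (-1) 2 (by norm_num) (fun s _ _ => by fun_prop)
    ⟨1, 0, fun s _ _ => by simp⟩).2.1 (by norm_num) (by norm_num)
  have hg1 : Integrable (fun t : ℝ => cexp (((2 : ℝ) + t * I) ^ 2) / ((2 : ℝ) + t * I)) := by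
    simpa using hg0.1
  set g : ℝ → ℂ := fun t => cexp (((2 : ℝ) + t * I) ^ 2) / ((2 : ℝ) + t * I) with hgdef
  have hs := nm_summable (K := K) hZK (σ := 5 / 2) (by norm_num)
  set c : NI K → ℂ := fun a => χ.ψ a.1 * ((nm a.1 ^ (-(1 / 2) : ℝ) : ℝ) : ℂ) with hc
  have hcs : Summable fun a : NI K => ‖c a‖ * (nm a.1 / X) ^ (-(2 : ℝ)) := by
    refine Summable.of_nonneg_of_le (fun a => mul_nonneg (norm_nonneg _)
      (Real.rpow_nonneg (div_pos (nm_pos a) hX).le _)) (fun a => ?_) (hs.mul_right (X ^ (2 : ℝ)))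
    have h1 := nm_pos a
    have h2 : ‖c a‖ ≤ nm a.1 ^ (-(1 / 2) : ℝ) := by
      rw [hc]
      simp only [norm_mul, Complex.norm_real]
      rw [Real.norm_of_nonneg (Real.rpow_nonneg h1.le _)]
      exact mul_le_of_le_one_left (Real.rpow_nonneg h1.le _) (rcc_norm_le χ a.1)
    have h3 : (nm a.1 / X) ^ (-(2 : ℝ)) = nm a.1 ^ (-(2 : ℝ)) * X ^ (2 : ℝ) := by
      rw [Real.div_rpow h1.le hX.le, Real.rpow_neg hX.le, div_inv_eq_mul]
    rw [h3]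
    calc ‖c a‖ * (nm a.1 ^ (-(2 : ℝ)) * X ^ (2 : ℝ))
        ≤ nm a.1 ^ (-(1 / 2) : ℝ) * (nm a.1 ^ (-(2 : ℝ)) * X ^ (2 : ℝ)) :=
          mul_le_mul_of_nonneg_right h2 (by positivity)
      _ = nm a.1 ^ (-(5 / 2) : ℝ) * X ^ (2 : ℝ) := by
          rw [← mul_assoc, ← Real.rpow_add h1]
          norm_num
  have key := swap c (fun a : NI K => nm a.1 / X) (fun a => div_pos (nm_pos a) hX) 2 hcs g hg1
  have h1 : A1 X χ.ψ = ((1 / (2 * Real.pi) : ℝ) : ℂ) *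
      ∑' a : NI K, c a * ∫ t : ℝ, g t * ((nm a.1 / X : ℝ) : ℂ) ^ (-(((2 : ℝ) : ℂ) + t * I)) := by
    unfold A1
    rw [← tsum_mul_left]
    refine tsum_congr fun a => ?_
    unfold wf
    rw [hc, hgdef]
    push_cast
    ring
  rw [h1, key.tsum_eq]
  congr 1
  refine integral_congr_ae (Eventually.of_forall fun t => ?_)
  have hre : 1 < (1 / 2 + (((2 : ℝ) : ℂ) + t * I)).re := by simp; norm_num
  simp only []
  rw [hZ.2 _ hre]
  have h2 : ∑' a : NI K, c a * ((nm a.1 / X : ℝ) : ℂ) ^ (-(((2 : ℝ) : ℂ) + t * I)) =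
      Lc χ (1 / 2 + (((2 : ℝ) : ℂ) + t * I)) * (X : ℂ) ^ (((2 : ℝ) : ℂ) + t * I) := by
    unfold Lc
    rw [← tsum_mul_right]
    refine tsum_congr fun a => ?_
    rw [div_cpow' (nm_pos a) hX, hc]
    have h3 := cpow_half (nm_pos a) (((2 : ℝ) : ℂ) + t * I)
    have h4 : ((nm a.1 : ℝ) : ℂ) = (Ideal.absNorm a.1 : ℂ) := by
      unfold nm
      push_cast
      rfl
    rw [h4] at h3 ⊢
    rw [← h3]
    ring
  rw [h2]
  ring

/-- the bound for `Z` to the left -/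
theorem left_bd [IsTotallyComplex K] (hEN : T_EN) (hZK : T_ZK) (A : ℕ) (hA : 1 ≤ A) {C : ℝ}
    (hC : ∀ t : ℝ, Gammaℂ (1 / 2 - A + t * I) ≠ 0 ∧
      ‖Gammaℂ (1 / 2 + A - t * I)‖ ≤ C * (1 + |t|) ^ (2 * A) * ‖Gammaℂ (1 / 2 - A + t * I)‖)
    (χ : RCC K) (hf : χ.f ≠ ⊤) {Z : ℂ → ℂ} (hZ : IsEnt χ Z) (t : ℝ) :
    ‖Z (1 / 2 - A + t * I)‖ ≤ cnd K χ.f ^ A * (C * (1 + |t|) ^ (2 * A)) ^ nrComplexPlaces K *
      ∑' I : NI K, nm I.1 ^ (-(1 / 2 + A : ℝ)) := by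
  obtain ⟨Z₁, Λ, ε, hZ₁, hΛ, hΛ1, hε, hfe, -⟩ := hEN K χ hf
  have hZZ : Z₁ = Z := ent_unique χ hZ₁ hZ
  subst hZZ
  have hD := cnd_pos χ
  set D := cnd K χ.f with hDdef
  set r := nrComplexPlaces K with hr
  set w : ℂ := 1 / 2 - A + t * I with hw
  set w' : ℂ := 1 / 2 + A + t * I with hw'
  have hA' : (1 : ℝ) ≤ A := by exact_mod_cast hA
  have hwre : w.re = 1 / 2 - A := by simp [hw]
  have hw're : w'.re = 1 / 2 + A := by simp [hw']
  have hww : 1 - (starRingEnd ℂ) w = w' := by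
    apply Complex.ext
    · simp [hw, hw']
      ring
    · simp [hw, hw']
  have e1 : Λ w = ε * (starRingEnd ℂ) (Λ w') := by rw [hfe w, hww]
  have e2 : ‖Λ w‖ = ‖Λ w'‖ := by rw [e1, norm_mul, hε, one_mul, Complex.norm_conj]
  have n1 : ∀ n : ℕ, w ≠ -(n : ℂ) := by
    intro n h
    have h1 := congrArg Complex.re h
    rw [hwre, neg_re, natCast_re] at h1
    have h2 : (2 * A : ℝ) = 2 * n + 1 := by linarith
    have h3 : 2 * A = 2 * n + 1 := by exact_mod_cast h2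
    omega
  have n2 : ∀ n : ℕ, w' ≠ -(n : ℂ) := by
    intro n h
    have h1 := congrArg Complex.re h
    rw [hw're, neg_re, natCast_re] at h1
    have h2 : (0 : ℝ) ≤ n := Nat.cast_nonneg n
    linarith
  rw [hΛ1 w n1, hΛ1 w' n2, norm_mul, norm_mul, norm_mul, norm_mul, norm_pow, norm_pow,
    Complex.norm_cpow_eq_rpow_re_of_pos hD, Complex.norm_cpow_eq_rpow_re_of_pos hD] at e2
  have r1 : (w / 2).re = (1 / 2 - A) / 2 := by
    rw [show w / 2 = ((1 / 2 : ℝ) : ℂ) * w by push_cast; ring, Complex.re_ofReal_mul, hwre]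
    ring
  have r2 : (w' / 2).re = (1 / 2 - A) / 2 + A := by
    rw [show w' / 2 = ((1 / 2 : ℝ) : ℂ) * w' by push_cast; ring, Complex.re_ofReal_mul, hw're]
    ring
  rw [r1, r2, Real.rpow_add hD, Real.rpow_natCast] at e2
  have hp : 0 < D ^ ((1 / 2 - A : ℝ) / 2) := Real.rpow_pos_of_pos hD _
  have e3 : ‖Gammaℂ w‖ ^ r * ‖Z₁ w‖ = D ^ A * ‖Gammaℂ w'‖ ^ r * ‖Z₁ w'‖ := by
    apply mul_left_cancel₀ hp.ne'
    linear_combination e2
  obtain ⟨hne, hle⟩ := hC t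
  have hG : ‖Gammaℂ w'‖ ≤ C * (1 + |t|) ^ (2 * A) * ‖Gammaℂ w‖ := by
    have h1 : (1 / 2 + A - t * I : ℂ) = (starRingEnd ℂ) w' := by
      apply Complex.ext
      · simp [hw']
      · simp [hw']
    rw [h1, norm_Gammaℂ_conj] at hle
    exact hle
  have hGp : 0 < ‖Gammaℂ w‖ := norm_pos_iff.2 hne
  have hL : ‖Z₁ w'‖ ≤ ∑' I : NI K, nm I.1 ^ (-(1 / 2 + A : ℝ)) := by
    have h1 : 1 < w'.re := by rw [hw're]; linarith
    rw [hZ₁.2 _ h1]
    have h2 := Lc_bound hZK χ h1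
    rwa [hw're] at h2
  set S := ∑' I : NI K, nm I.1 ^ (-(1 / 2 + A : ℝ)) with hS
  have hGr : 0 < ‖Gammaℂ w‖ ^ r := pow_pos hGp r
  refine le_of_mul_le_mul_left ?_ hGr
  rw [e3]
  have h5 : ‖Gammaℂ w'‖ ^ r ≤ (C * (1 + |t|) ^ (2 * A)) ^ r * ‖Gammaℂ w‖ ^ r := by
    rw [← mul_pow]
    exact pow_le_pow_left₀ (norm_nonneg _) hG r
  have hDA : 0 ≤ D ^ A := (pow_pos hD A).le
  have h6 : 0 ≤ (C * (1 + |t|) ^ (2 * A)) ^ r := by
    by_contra h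
    push Not at h
    have h7 : (C * (1 + |t|) ^ (2 * A)) ^ r * ‖Gammaℂ w‖ ^ r < 0 := mul_neg_of_neg_of_pos h hGr
    have h8 : 0 ≤ ‖Gammaℂ w'‖ ^ r := pow_nonneg (norm_nonneg _) r
    linarith
  calc D ^ A * ‖Gammaℂ w'‖ ^ r * ‖Z₁ w'‖
      ≤ D ^ A * ((C * (1 + |t|) ^ (2 * A)) ^ r * ‖Gammaℂ w‖ ^ r) * S := by
        refine mul_le_mul (mul_le_mul_of_nonneg_left h5 hDA) hL (norm_nonneg _) ?_
        exact mul_nonneg hDA (mul_nonneg h6 hGr.le)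
    _ = ‖Gammaℂ w‖ ^ r * (D ^ A * (C * (1 + |t|) ^ (2 * A)) ^ r * S) := by ring

/-- the integrand of the shifted integral satisfies the hypotheses of (SH) -/
theorem F_str (hHE : T_HEc) (hGW : T_GWc) (χ : RCC K) {Z : ℂ → ℂ} (hZ : IsEnt χ Z) {X : ℝ}
    (hX : 0 < X) (A : ℝ) :
    (∀ s : ℂ, -A ≤ s.re → s.re ≤ 2 →
      DifferentiableAt ℂ (fun s => Z (1 / 2 + s) * (X : ℂ) ^ s) s) ∧
    ∃ C B : ℝ, ∀ s : ℂ, -A ≤ s.re → s.re ≤ 2 →
      ‖Z (1 / 2 + s) * (X : ℂ) ^ s‖ ≤ C * (1 + |s.im|) ^ B := by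
  refine ⟨fun s _ _ => ?_, ?_⟩
  · have h1 : DifferentiableAt ℂ (fun s : ℂ => Z (1 / 2 + s)) s :=
      (hZ.1 (1 / 2 + s)).comp s (by fun_prop)
    refine h1.mul ?_
    exact differentiableAt_id.const_cpow (Or.inl (by exact_mod_cast hX.ne'))
  · obtain ⟨C, B, hC⟩ := poly_bd hHE hGW χ hZ (|A| + 3)
    refine ⟨|C| * Real.exp (|Real.log X| * (|A| + 2)), B, fun s h1 h2 => ?_⟩
    have hA1 := le_abs_self A
    have hA0 := abs_nonneg A
    have h3 : |(1 / 2 + s).re| ≤ |A| + 3 := by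
      rw [abs_le]
      simp only [add_re, one_div]
      have h5 : ((2 : ℂ)⁻¹).re = 1 / 2 := by norm_num
      rw [h5]
      constructor <;> linarith
    have h4 := hC _ h3
    have h5 : (1 / 2 + s).im = s.im := by
      rw [add_im]
      have : ((1 : ℂ) / 2).im = 0 := by norm_num
      rw [this, zero_add]
    rw [h5] at h4
    have h6 : ‖(X : ℂ) ^ s‖ ≤ Real.exp (|Real.log X| * (|A| + 2)) := by
      rw [Complex.norm_cpow_eq_rpow_re_of_pos hX, Real.rpow_def_of_pos hX]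
      refine Real.exp_le_exp.2 ((le_abs_self _).trans ?_)
      rw [abs_mul]
      refine mul_le_mul_of_nonneg_left ?_ (abs_nonneg _)
      rw [abs_le]
      constructor <;> linarith
    have h7 : 0 ≤ (1 + |s.im|) ^ B := Real.rpow_nonneg (by linarith [abs_nonneg s.im]) _
    rw [norm_mul]
    calc ‖Z (1 / 2 + s)‖ * ‖(X : ℂ) ^ s‖
        ≤ (|C| * (1 + |s.im|) ^ B) * Real.exp (|Real.log X| * (|A| + 2)) :=
          mul_le_mul (h4.trans (mul_le_mul_of_nonneg_right (le_abs_self C) h7)) h6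
            (norm_nonneg _) (mul_nonneg (abs_nonneg C) h7)
      _ = _ := by ring

end

/-- the Gaussian beats the powers -/
theorem gauss_bd (k : ℕ) (A : ℝ) (t : ℝ) :
    (1 + |t|) ^ k * ‖cexp ((-A + t * I) ^ 2)‖ ≤
      Real.exp (A ^ 2 + ((k : ℝ) + 1) ^ 2) * Real.exp (-(1 * |t|)) := by
  have e2 : ‖cexp ((-A + t * I : ℂ) ^ 2)‖ = Real.exp (A ^ 2 - t ^ 2) := by
    rw [Complex.norm_exp]
    congr 1
    rw [pow_two, Complex.mul_re]
    simp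
    ring
  have hu : 0 ≤ |t| := abs_nonneg t
  have h4 : (1 + |t|) ^ k ≤ Real.exp (k * |t|) := by
    rw [mul_comm, Real.exp_mul, Real.rpow_natCast]
    refine pow_le_pow_left₀ (by linarith) ?_ k
    have := Real.add_one_le_exp |t|
    linarith
  rw [e2]
  calc (1 + |t|) ^ k * Real.exp (A ^ 2 - t ^ 2)
      ≤ Real.exp (k * |t|) * Real.exp (A ^ 2 - t ^ 2) :=
        mul_le_mul_of_nonneg_right h4 (Real.exp_pos _).le
    _ = Real.exp (k * |t| + (A ^ 2 - t ^ 2)) := (Real.exp_add _ _).symm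
    _ ≤ Real.exp ((A ^ 2 + ((k : ℝ) + 1) ^ 2) + -(1 * |t|)) := by
        refine Real.exp_le_exp.2 ?_
        have h5 : t ^ 2 = |t| ^ 2 := (sq_abs _).symm
        rw [h5]
        nlinarith [sq_nonneg (|t| - ((k : ℝ) + 1) / 2), sq_nonneg ((k : ℝ) + 1)]
    _ = _ := Real.exp_add _ _

theorem pf_AF1 (hSH : T_SH) (hGB : T_GB) (hEN : T_EN) (hZK : T_ZK) (hHE : T_HEc)
    (hGW : T_GWc) : T_AF1 := by
  intro K _ _ _ A hA
  obtain ⟨C, hC⟩ := hGB.2 A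
  set r := nrComplexPlaces K with hr
  set S := ∑' I : NI K, nm I.1 ^ (-(1 / 2 + A : ℝ)) with hS
  have hA' : (1 : ℝ) ≤ A := by exact_mod_cast hA
  have hCr : 0 ≤ C := by
    obtain ⟨h1, h2⟩ := hC 0
    by_contra h
    push Not at h
    have h3 : C * (1 + |(0 : ℝ)|) ^ (2 * A) * ‖Gammaℂ (1 / 2 - A + (0 : ℝ) * I)‖ < 0 := by
      refine mul_neg_of_neg_of_pos (mul_neg_of_neg_of_pos h (by positivity)) (norm_pos_iff.2 h1)
    have h4 := norm_nonneg (Gammaℂ (1 / 2 + A - (0 : ℝ) * I))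
    linarith
  have hS0 : 0 ≤ S := tsum_nonneg fun I => Real.rpow_nonneg (nm_pos I).le _
  have hint := Pool.Agent.Ratios.integrable_exp_neg_mul_abs 1 one_pos
  obtain ⟨B, hB⟩ : ∃ B : ℝ, B = C ^ r * S * Real.exp ((A : ℝ) ^ 2 + (((2 * A * r : ℕ) : ℝ) + 1) ^ 2) :=
    ⟨_, rfl⟩
  have hB0 : 0 ≤ B := by rw [hB]; positivity
  refine ⟨1 / (2 * Real.pi) * (B * ∫ t : ℝ, Real.exp (-(1 * |t|))), ?_⟩
  intro χ hf Z hZ X hX
  have hD := cnd_pos χ
  set D := cnd K χ.f with hDdef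
  obtain ⟨hd, hb⟩ := F_str hHE hGW χ hZ hX A
  have hsh := (hSH (fun s => Z (1 / 2 + s) * (X : ℂ) ^ s) (-A) 2 (by linarith) hd hb).2.1
    (by linarith) (by norm_num)
  obtain ⟨-, -, h3⟩ := hsh
  have hA1 := A1_eq hSH hZK χ hZ hX
  simp only [add_zero, cpow_zero, mul_one] at h3
  set J₁ : ℂ := ∫ t : ℝ, Z (1 / 2 + (((2 : ℝ) : ℂ) + t * I)) *
      (X : ℂ) ^ (((2 : ℝ) : ℂ) + t * I) * (cexp ((((2 : ℝ) : ℂ) + t * I) ^ 2) /
        (((2 : ℝ) : ℂ) + t * I)) with hJ₁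
  set J₂ : ℂ := ∫ t : ℝ, Z (1 / 2 + (((-A : ℝ) : ℂ) + t * I)) *
      (X : ℂ) ^ (((-A : ℝ) : ℂ) + t * I) * (cexp ((((-A : ℝ) : ℂ) + t * I) ^ 2) /
        (((-A : ℝ) : ℂ) + t * I)) with hJ₂
  have hpi : (Real.pi : ℂ) ≠ 0 := ofReal_ne_zero.mpr Real.pi_pos.ne'
  have hdiff : Z (1 / 2) - A1 X χ.ψ = -(((1 / (2 * Real.pi) : ℝ) : ℂ) * J₂) := by
    rw [hA1]
    have h4 : Z (1 / 2) = ((1 / (2 * Real.pi) : ℝ) : ℂ) * (J₁ - J₂) := by
      rw [h3]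
      push_cast
      field_simp
    rw [h4]
    ring
  have hJb : ‖J₂‖ ≤ ∫ t : ℝ, (B * (D / X) ^ A) * Real.exp (-(1 * |t|)) := by
    refine norm_integral_le_of_norm_le (hint.const_mul _) (Eventually.of_forall fun t => ?_)
    have h5 := left_bd hEN hZK A hA hC χ hf hZ t
    have h6 : (1 / 2 + (((-A : ℝ) : ℂ) + t * I)) = 1 / 2 - A + t * I := by
      push_cast
      ring
    have h7 : (((-A : ℝ) : ℂ) + t * I) = (-A + t * I : ℂ) := by
      push_cast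
      ring
    have h8 : ‖(X : ℂ) ^ (((-A : ℝ) : ℂ) + t * I)‖ = (X ^ A)⁻¹ := by
      rw [Complex.norm_cpow_eq_rpow_re_of_pos hX]
      simp [Real.rpow_neg hX.le]
    have h9 : 1 ≤ ‖((-A : ℝ) : ℂ) + t * I‖ := by
      refine hA'.trans ?_
      have := Complex.abs_re_le_norm (((-A : ℝ) : ℂ) + t * I)
      simpa using this
    have h10 := gauss_bd (2 * A * r) A t
    rw [norm_mul, norm_mul, norm_div, h6, h8]
    rw [h7] at h9 ⊢
    set G := ‖cexp ((-A + t * I : ℂ) ^ 2)‖ with hG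
    have hG0 : 0 ≤ G := norm_nonneg _
    have h11 : G / ‖(-A + t * I : ℂ)‖ ≤ G := div_le_self hG0 h9
    have hXA : 0 < X ^ A := pow_pos hX A
    calc ‖Z (1 / 2 - A + t * I)‖ * (X ^ A)⁻¹ * (G / ‖(-A + t * I : ℂ)‖)
        ≤ (D ^ A * (C * (1 + |t|) ^ (2 * A)) ^ r * S) * (X ^ A)⁻¹ * G := by
          refine mul_le_mul (mul_le_mul_of_nonneg_right h5 (by positivity)) h11
            (by positivity) (by positivity)
      _ = C ^ r * S * (D / X) ^ A * ((1 + |t|) ^ (2 * A * r) * G) := by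
          rw [mul_pow, div_pow, ← pow_mul]
          ring
      _ ≤ C ^ r * S * (D / X) ^ A * (Real.exp ((A : ℝ) ^ 2 + (((2 * A * r : ℕ) : ℝ) + 1) ^ 2) *
            Real.exp (-(1 * |t|))) := mul_le_mul_of_nonneg_left h10 (by positivity)
      _ = _ := by
          rw [hB]
          ring
  rw [hdiff, norm_neg, norm_mul, Complex.norm_real, Real.norm_of_nonneg (by positivity)]
  rw [integral_const_mul] at hJb
  calc 1 / (2 * Real.pi) * ‖J₂‖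
      ≤ 1 / (2 * Real.pi) * (B * (D / X) ^ A * ∫ t : ℝ, Real.exp (-(1 * |t|))) :=
        mul_le_mul_of_nonneg_left hJb (by positivity)
    _ = _ := by ring

end Pool.Agent.H56.CV
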