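import Pool.Agent.H37.CV.Targets
import Pool.Agent.H81.RC.HE
import Pool.Agent.H20.HKI.Cont

/-!
# Hecke's theorem for primitive ray class characters of totally complex fields (module EN)
-/

set_option autoImplicit false

open NumberField NumberField.InfinitePlace Set Filter Complex
open scoped nonZeroDivisors ENNReal Topology

namespace Pool.Agent.H56.CV

open Pool.Agent.H37.CV Pool.Agent.H28.RC Pool.Agent.H25.HK Pool.Agent.H81.RC.HE
open Pool.Agent.H20.HKI (eq_off cj cj_diff cj_eq gS_bar gS_conj gS_ne_im dense_im)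

section

variable {K : Type} [Field K] [NumberField K]

theorem en_gS [IsTotallyComplex K] (χ : RCC K) (s : ℂ) :
    gS χ s = Gammaℂ s ^ nrComplexPlaces K := by
  have h1 : nrRealPlaces K = 0 := IsTotallyComplex.nrRealPlaces_eq_zero K
  have h2 : χ.S.card = 0 := by
    rw [Finset.card_eq_zero, Finset.eq_empty_iff_forall_notMem]
    intro v _
    have h3 := IsTotallyComplex.isComplex v.1
    exact (not_isReal_iff_isComplex.2 h3) v.2
  unfold gS
  rw [h1, h2, Nat.zero_sub, pow_zero, pow_zero, one_mul, one_mul]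

theorem Gammaℂ_ne {s : ℂ} (hs : ∀ n : ℕ, s ≠ -(n : ℂ)) : Gammaℂ s ≠ 0 := by
  unfold Gammaℂ
  refine mul_ne_zero (mul_ne_zero two_ne_zero ?_) (Gamma_ne_zero hs)
  rw [Ne, cpow_eq_zero_iff]
  intro h
  have : (2 * (Real.pi : ℂ)) ≠ 0 := by
    exact mul_ne_zero two_ne_zero (ofReal_ne_zero.mpr Real.pi_pos.ne')
  exact this h.1

theorem cpow_conj_real {D : ℝ} (hD : 0 < D) (s : ℂ) :
    (starRingEnd ℂ) ((D : ℂ) ^ ((starRingEnd ℂ) s)) = (D : ℂ) ^ s := by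
  have h := cpow_conj (D : ℂ) s (by
    rw [Complex.arg_ofReal_of_nonneg hD.le]
    exact Real.pi_pos.ne)
  rw [conj_ofReal] at h
  rw [h, Complex.conj_conj]

open scoped Classical in
/-- the entire completed function -/
theorem en_entire (hWP : T_WPc) (hME : T_MEc) (hCS : T_CSc) (hEP : T_EPc) (hDU : T_DU)
    (hCW : T_CW) (hCM : Pool.Agent.H28.RC.T_CM) (χ : RCC K) (hf : χ.f ≠ ⊤) : ∃ L : ℂ → ℂ, Differentiable ℂ L ∧
      ∀ s : ℂ, 1 < s.re → L s = cK K * gS χ s * Lc χ s := by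
  obtain ⟨W, hW⟩ := hCW K χ
  obtain ⟨ι, hι, M, hM0, hM1, hM2⟩ := hCS K χ.f χ.f_ne
  choose P hPf hPg hPk hPε hPf0 hPg0 using fun c => hWP K χ W (M c) hW (hM0 c)
  have hNp : ∀ c, 0 < (FractionalIdeal.absNorm (M c) : ℝ) := fun c =>
    (hDU K (M c) (hM0 c)).2.2.2.1
  have hLK := LK_eq hME hEP χ M hM0 hM1 hNp P hPk hPf hPf0
  obtain ⟨N, hN⟩ : ∃ N : ι → ℝ, N = fun c => (FractionalIdeal.absNorm (M c) : ℝ) := ⟨_, rfl⟩
  rw [← hN] at hLK
  have hN0 : ∀ c, 0 < N c := fun c => by rw [hN]; exact hNp c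
  have hf0 : ((χ.f : Ideal (𝓞 K)) : FI K) ≠ 0 := by
    rw [Ne, FractionalIdeal.coeIdeal_eq_zero]
    exact χ.f_ne
  have hfM : ∀ c, (χ.f : FI K) * M c ≠ 0 := fun c => mul_ne_zero hf0 (hM0 c)
  have hM' : ∀ c, du' χ (M c) ≠ 0 := fun c => (hDU K _ (hfM c)).1
  have hP0 : ∀ c, (P c).f₀ = 0 := fun c => by
    rw [hPf0]
    unfold k0
    rw [(hCM K χ (M c) (hM0 c)).2.2.2.2.2.1 hf, zero_mul, ite_self]
  have hP1 : ∀ c, (P c).g₀ = 0 := fun c => by
    rw [hPg0]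
    unfold k0
    rw [(hCM K χ.bar (du' χ (M c)) (hM' c)).2.2.2.2.2.1 hf, zero_mul, ite_self]
  refine ⟨LK N P, fun s => ?_, hLK⟩
  have h : LK N P = fun s => ∑ c, ((N c : ℝ) : ℂ) ^ s * (P c).Λ s := rfl
  rw [h]
  refine DifferentiableAt.fun_sum fun c _ => ?_
  have h1 : DifferentiableAt ℂ (fun s : ℂ => ((N c : ℝ) : ℂ) ^ s) s :=
    (differentiableAt_id).const_cpow (Or.inl (by exact_mod_cast (hN0 c).ne'))
  exact h1.mul ((P c).differentiableAt_Λ (Or.inr (hP0 c)) (Or.inr (hP1 c)))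

end

theorem pf_EN (hWP : T_WPc) (hME : T_MEc) (hCS : T_CSc) (hEP : T_EPc) (hDU : T_DU)
    (hCW : T_CW) (hCM : Pool.Agent.H28.RC.T_CM) (hHE : T_HEc) : T_EN := by
  intro K _ _ _ χ hf
  obtain ⟨L, hL, hL1⟩ := en_entire hWP hME hCS hEP hDU hCW hCM χ hf
  have hNf : (0 : ℝ) < (Ideal.absNorm χ.f : ℝ) := by
    have : Ideal.absNorm χ.f ≠ 0 := by
      rw [Ne, Ideal.absNorm_eq_zero_iff]
      exact χ.f_ne
    positivity
  have hd0 : 0 < |(discr K : ℝ)| := abs_pos.2 (by exact_mod_cast discr_ne_zero K)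
  have hD : 0 < Dc χ := mul_pos hd0 hNf
  have hcK := cK_ne K
  have hZd : Differentiable ℂ (Zc χ L) := by
    have h : Zc χ L = fun s => (cK K)⁻¹ * (gS χ s)⁻¹ * L s := rfl
    rw [h]
    exact ((gS_inv_diff χ).const_mul _).mul hL
  have hZ1 : ∀ s : ℂ, 1 < s.re → Zc χ L s = Lc χ s :=
    (IsZc_Zc χ L (fun s _ => hL s) hL1).2
  set Λ : ℂ → ℂ := fun s => ((Dc χ : ℝ) : ℂ) ^ (s / 2) * (cK K)⁻¹ * L s with hΛ
  have hΛd : Differentiable ℂ Λ := by
    intro s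
    refine ((DifferentiableAt.const_cpow (by fun_prop) (Or.inl ?_)).mul_const _).mul (hL s)
    exact_mod_cast hD.ne'
  have hcomp : ∀ s : ℂ, s.im ≠ 0 → compc χ (Zc χ L) s = Λ s := fun s hs => compc_Zc χ L hs
  obtain ⟨Z₁, Z₂, ε, ⟨hZ11, hZ12⟩, ⟨hZ21, hZ22⟩, hε, hfe, hbd⟩ := hHE K χ
  have e1 : ∀ s : ℂ, s.im ≠ 0 → Z₁ s = Zc χ L s :=
    eq_off hZ11 hZd fun s hs => by rw [hZ12 s hs, hZ1 s hs]
  have e2 : ∀ s : ℂ, s.im ≠ 0 → Z₂ s = cj (Zc χ L) s :=
    eq_off hZ21 (cj_diff hZd) fun s hs => by rw [hZ22 s hs, cj_eq χ hZ1 s hs]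
  have hc1 : ∀ s : ℂ, s.im ≠ 0 → compc χ Z₁ s = Λ s := by
    intro s hs
    rw [← hcomp s hs]
    unfold compc
    rw [e1 s hs]
  have hc2 : ∀ s : ℂ, s.im ≠ 0 → compc χ.bar Z₂ s = cj Λ s := by
    intro s hs
    have hs' : ((starRingEnd ℂ) s).im ≠ 0 := by
      rw [conj_im]
      exact neg_ne_zero.2 hs
    unfold cj
    rw [← hcomp _ hs']
    unfold compc
    rw [e2 s hs, map_mul, map_mul, gS_conj, Complex.conj_conj, gS_bar]
    have h1 : (starRingEnd ℂ) s / 2 = (starRingEnd ℂ) (s / 2) := by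
      rw [map_div₀, map_ofNat]
    have h2 : |(discr K : ℝ)| * (Ideal.absNorm χ.f : ℝ) = Dc χ := rfl
    have h3 : |(discr K : ℝ)| * (Ideal.absNorm χ.bar.f : ℝ) = Dc χ := rfl
    rw [h1, h2, h3, cpow_conj_real hD]
    rfl
  have hfun : ∀ s : ℂ, Λ s = ε * cj Λ (1 - s) := by
    have key : ∀ s ∈ {s : ℂ | s.im ≠ 0}, Λ s = ε * cj Λ (1 - s) := by
      intro s hs
      have hs0 : s.im ≠ 0 := hs
      have hs' : (1 - s).im ≠ 0 := by simpa using hs0
      rw [← hc1 s hs0, ← hc2 _ hs']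
      exact hfe s hs0
    have h4 := Continuous.ext_on dense_im hΛd.continuous
      (continuous_const.mul ((cj_diff hΛd).continuous.comp (continuous_const.sub continuous_id)))
      key
    exact fun s => congrFun h4 s
  refine ⟨Zc χ L, Λ, ε, ⟨hZd, hZ1⟩, hΛd, ?_, hε, ?_, ?_⟩
  · intro s hs
    have h1 := Gammaℂ_ne hs
    have h2 : Zc χ L s = (cK K)⁻¹ * (gS χ s)⁻¹ * L s := rfl
    have h3 : (cnd K χ.f : ℝ) = Dc χ := rfl
    rw [h2, en_gS, h3, hΛ]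
    have h4 : Gammaℂ s ^ nrComplexPlaces K ≠ 0 := pow_ne_zero _ h1
    field_simp
  · intro s
    rw [hfun s]
    unfold cj
    rw [map_sub, map_one]
  · intro b
    obtain ⟨C₁, hC₁⟩ := hbd b
    set Kc : Set ℂ := {s : ℂ | |s.re| ≤ b ∧ |s.im| ≤ 1} with hKc
    have hcomp' : IsCompact Kc := by
      have h1 : Kc = (Icc (-b) b) ×ℂ (Icc (-1) 1) := by
        ext s
        rw [hKc, mem_reProdIm]
        simp only [mem_ofPred_eq, mem_Icc, abs_le]
      rw [h1]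
      exact isCompact_Icc.reProdIm isCompact_Icc
    obtain ⟨C₂, hC₂⟩ := hcomp'.exists_bound_of_continuousOn hΛd.continuous.continuousOn
    refine ⟨max C₁ C₂, fun s hs => ?_⟩
    rcases le_total |s.im| 1 with h | h
    · exact (hC₂ s ⟨hs, h⟩).trans (le_max_right _ _)
    · have hs0 : s.im ≠ 0 := by
        intro h0
        rw [h0, abs_zero] at h
        linarith
      rw [← hc1 s hs0]
      exact (hC₁ s hs h).1.trans (le_max_left _ _)

end Pool.Agent.H56.CV
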