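import Pool.Agent.H37.CV.Targets
import Pool.Agent.Ratios.Contour
import Pool.Agent.H58.MZ.Rect
import Pool.Agent.H18.PZ.RC

/-!
# Contour shifts with a Gaussian weight (module SH)
-/

set_option autoImplicit false

open Complex MeasureTheory Set Filter Topology

namespace Pool.Agent.H56.CV

open Pool.Agent.H37.CV

/-- holomorphic and polynomially bounded on a strip -/
structure Str (F : ℂ → ℂ) (a b : ℝ) : Prop where
  diff : ∀ s : ℂ, a ≤ s.re → s.re ≤ b → DifferentiableAt ℂ F s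
  bd : ∃ C A : ℝ, ∀ s : ℂ, a ≤ s.re → s.re ≤ b → ‖F s‖ ≤ C * (1 + |s.im|) ^ A

theorem line_cont {G : ℂ → ℂ} {c : ℝ} (h : ∀ t : ℝ, DifferentiableAt ℂ G (c + t * I)) :
    Continuous (fun t : ℝ => G (c + t * I)) := by
  rw [continuous_iff_continuousAt]
  intro t
  exact ContinuousAt.comp (f := fun t : ℝ => (c : ℂ) + t * I) (h t).continuousAt (by fun_prop)

/-- decay of the integrand -/
theorem Str.decay {F : ℂ → ℂ} {a b : ℝ} (h : Str F a b) : ∃ M : ℝ, 0 ≤ M ∧
    ∀ s : ℂ, a ≤ s.re → s.re ≤ b → ‖F s * cexp (s ^ 2)‖ ≤ M * Real.exp (-(1 * |s.im|)) := by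
  obtain ⟨C, A, hC⟩ := h.bd
  refine ⟨|C| * (Real.exp (a ^ 2 + b ^ 2) * Real.exp ((|A| + 1) ^ 2)), by positivity, ?_⟩
  intro s h1 h2
  have hu : 0 ≤ |s.im| := abs_nonneg _
  have e1 : ‖F s‖ ≤ |C| * Real.exp (|A| * |s.im|) := by
    refine (hC s h1 h2).trans ?_
    have h3 : (1 + |s.im|) ^ A ≤ (1 + |s.im|) ^ |A| :=
      Real.rpow_le_rpow_of_exponent_le (by linarith) (le_abs_self A)
    have h4 : (1 + |s.im|) ^ |A| ≤ Real.exp (|A| * |s.im|) := by
      rw [Real.rpow_def_of_pos (by linarith)]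
      refine Real.exp_le_exp.2 ?_
      rw [mul_comm]
      refine mul_le_mul_of_nonneg_left ?_ (abs_nonneg A)
      have := Real.log_le_sub_one_of_pos (show 0 < 1 + |s.im| by linarith)
      linarith
    calc C * (1 + |s.im|) ^ A ≤ |C| * (1 + |s.im|) ^ A :=
          mul_le_mul_of_nonneg_right (le_abs_self C) (by positivity)
      _ ≤ |C| * Real.exp (|A| * |s.im|) :=
          mul_le_mul_of_nonneg_left (h3.trans h4) (abs_nonneg C)
  have e2 : ‖cexp (s ^ 2)‖ = Real.exp (s.re ^ 2 - s.im ^ 2) := by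
    rw [Complex.norm_exp]
    congr 1
    rw [pow_two, Complex.mul_re]
    ring
  have e3 : s.re ^ 2 ≤ a ^ 2 + b ^ 2 := by
    rcases le_or_gt 0 s.re with h0 | h0
    · nlinarith [sq_nonneg a]
    · nlinarith [sq_nonneg b]
  rw [norm_mul, e2]
  calc ‖F s‖ * Real.exp (s.re ^ 2 - s.im ^ 2)
      ≤ |C| * Real.exp (|A| * |s.im|) * Real.exp (s.re ^ 2 - s.im ^ 2) :=
        mul_le_mul_of_nonneg_right e1 (Real.exp_pos _).le
    _ = |C| * Real.exp (|A| * |s.im| + (s.re ^ 2 - s.im ^ 2)) := by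
        rw [mul_assoc, ← Real.exp_add]
    _ ≤ |C| * Real.exp ((a ^ 2 + b ^ 2) + (|A| + 1) ^ 2 + -(1 * |s.im|)) := by
        refine mul_le_mul_of_nonneg_left (Real.exp_le_exp.2 ?_) (abs_nonneg C)
        have h5 : s.im ^ 2 = |s.im| ^ 2 := (sq_abs _).symm
        rw [h5]
        nlinarith [sq_nonneg (|s.im| - (|A| + 1) / 2), sq_nonneg (|A| + 1)]
    _ = _ := by
        rw [Real.exp_add, Real.exp_add]
        ring

theorem Str.expDiff {F : ℂ → ℂ} {a b : ℝ} (h : Str F a b) (s : ℂ) (h1 : a ≤ s.re)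
    (h2 : s.re ≤ b) : DifferentiableAt ℂ (fun s => F s * cexp (s ^ 2)) s :=
  (h.diff s h1 h2).mul (by fun_prop)

/-- integrability on a line, with a bounded factor -/
theorem Str.int {F : ℂ → ℂ} {a b : ℝ} (h : Str F a b) {c : ℝ} (h1 : a ≤ c) (h2 : c ≤ b)
    {g : ℝ → ℂ} (hg : Continuous g) {B : ℝ} (hB : ∀ t, ‖g t‖ ≤ B) :
    Integrable (fun t : ℝ => F (c + t * I) * cexp ((c + t * I) ^ 2) * g t) := by
  obtain ⟨M, hM, hd⟩ := h.decay
  refine (((Pool.Agent.Ratios.integrable_exp_neg_mul_abs 1 one_pos).const_mul M).mul_const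
    B).mono' ?_ (Eventually.of_forall fun t => ?_)
  · refine Continuous.aestronglyMeasurable (Continuous.mul ?_ hg)
    exact line_cont (G := fun s => F s * cexp (s ^ 2)) fun t =>
      h.expDiff _ (by simpa using h1) (by simpa using h2)
  · rw [norm_mul]
    have h3 := hd (c + t * I) (by simpa using h1) (by simpa using h2)
    have h4 : ((c : ℂ) + t * I).im = t := by simp
    rw [h4] at h3
    exact mul_le_mul h3 (hB t) (norm_nonneg _) (by positivity)

/-- no pole -/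
theorem Str.shift {F : ℂ → ℂ} {a b : ℝ} (h : Str F a b) (hab : a ≤ b) :
    ∫ t : ℝ, F (b + t * I) * cexp ((b + t * I) ^ 2) =
      ∫ t : ℝ, F (a + t * I) * cexp ((a + t * I) ^ 2) := by
  obtain ⟨M, hM, hd⟩ := h.decay
  exact Pool.Agent.Ratios.integral_vertical_shift (fun s => F s * cexp (s ^ 2)) a b hab M 1
    one_pos (fun s h1 h2 => h.expDiff s h1 h2) hd

theorem line_ne {c : ℝ} (hc : c ≠ 0) (t : ℝ) : (c : ℂ) + t * I ≠ 0 := by
  intro h
  have := congrArg Complex.re h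
  simp at this
  exact hc this

theorem inv_bound {c : ℝ} (hc : c ≠ 0) (t : ℝ) : ‖((c : ℂ) + t * I)⁻¹‖ ≤ |c|⁻¹ := by
  rw [norm_inv]
  have h1 : |c| ≤ ‖(c : ℂ) + t * I‖ := by
    have := Complex.abs_re_le_norm ((c : ℂ) + t * I)
    simpa using this
  exact inv_anti₀ (abs_pos.2 hc) h1

theorem inv_cont {c : ℝ} (hc : c ≠ 0) : Continuous (fun t : ℝ => ((c : ℂ) + t * I)⁻¹) :=
  Continuous.inv₀ (by fun_prop) (line_ne hc)

theorem Str.int1 {F : ℂ → ℂ} {a b : ℝ} (h : Str F a b) {c : ℝ} (h1 : a ≤ c) (h2 : c ≤ b)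
    (hc : c ≠ 0) :
    Integrable (fun t : ℝ => F (c + t * I) * (cexp ((c + t * I) ^ 2) / (c + t * I))) := by
  refine (h.int h1 h2 (inv_cont hc) (inv_bound hc)).congr (Eventually.of_forall fun t => ?_)
  simp only [div_eq_mul_inv]
  ring

theorem Str.int2 {F : ℂ → ℂ} {a b : ℝ} (h : Str F a b) {c : ℝ} (h1 : a ≤ c) (h2 : c ≤ b)
    (hc : c ≠ 0) :
    Integrable (fun t : ℝ => F (c + t * I) * (cexp ((c + t * I) ^ 2) / (c + t * I) ^ 2)) := by
  refine (h.int h1 h2 (g := fun t => (((c : ℂ) + t * I)⁻¹) ^ 2) ((inv_cont hc).pow 2)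
    (B := (|c|⁻¹) ^ 2) fun t => ?_).congr (Eventually.of_forall fun t => ?_)
  · rw [norm_pow]
    exact pow_le_pow_left₀ (norm_nonneg _) (inv_bound hc t) 2
  · simp only [div_eq_mul_inv, inv_pow]
    ring

/-- a simple pole -/
theorem Str.simple {F : ℂ → ℂ} {a b : ℝ} (h : Str F a b) (ha : a < 0) (hb : 0 < b) :
    (∫ t : ℝ, F (b + t * I) * (cexp ((b + t * I) ^ 2) / (b + t * I))) -
      (∫ t : ℝ, F (a + t * I) * (cexp ((a + t * I) ^ 2) / (a + t * I))) =
        2 * Real.pi * F 0 := by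
  obtain ⟨M, hM, hd⟩ := h.decay
  have hab : a ≤ b := (ha.trans hb).le
  set Φ : ℂ → ℂ := fun s => F s * cexp (s ^ 2) with hΦ
  have i1 : Integrable (fun t : ℝ => Φ (b + t * I) / (b + t * I)) :=
    (h.int1 hab le_rfl hb.ne').congr (Eventually.of_forall fun t => by
      simp only [hΦ, div_eq_mul_inv]
      ring)
  have i2 : Integrable (fun t : ℝ => Φ (a + t * I) / (a + t * I)) :=
    (h.int1 le_rfl hab ha.ne).congr (Eventually.of_forall fun t => by
      simp only [hΦ, div_eq_mul_inv]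
      ring)
  have hneg : Tendsto (fun T : ℝ => -T) atTop atBot := tendsto_neg_atTop_atBot
  have l1 := intervalIntegral_tendsto_integral i1 hneg tendsto_id
  have l2 := intervalIntegral_tendsto_integral i2 hneg tendsto_id
  have l3 := (((l1.const_mul (((1 / (2 * Real.pi) : ℝ) : ℂ))).sub
    (l2.const_mul (((1 / (2 * Real.pi) : ℝ) : ℂ)))).sub_const (Φ 0)).norm
  have l4 : Tendsto (fun H : ℝ => (b - a) * (M * Real.exp (-(1 * H)))) atTop (𝓝 0) := by
    have h1 : Tendsto (fun H : ℝ => Real.exp (-(1 * H))) atTop (𝓝 0) := by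
      simpa using Real.tendsto_exp_neg_atTop_nhds_zero
    simpa using (h1.const_mul M).const_mul (b - a)
  have l5 := le_of_tendsto_of_tendsto l3 l4 (by
    filter_upwards [eventually_ge_atTop (1 : ℝ)] with H hH
    refine Pool.Agent.H58.MZ.rect_cauchy Pool.Agent.H18.PZ.rc Φ a b H _ ha hb hH
      (fun s h1 h2 _ _ => h.expDiff s h1 h2) fun s h1 h2 h3 => ?_
    rw [← h3]
    exact hd s h1 h2)
  have h6 := norm_le_zero_iff.1 l5
  have h7 : Φ 0 = F 0 := by simp [hΦ]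
  have h8 : ∀ c : ℝ, (∫ t : ℝ, F (c + t * I) * (cexp ((c + t * I) ^ 2) / (c + t * I))) =
      ∫ t : ℝ, Φ (c + t * I) / (c + t * I) := fun c => by
    refine integral_congr_ae (Eventually.of_forall fun t => ?_)
    simp only [hΦ, div_eq_mul_inv]
    ring
  rw [h8, h8]
  rw [h7] at h6
  have hpi : (Real.pi : ℂ) ≠ 0 := ofReal_ne_zero.mpr Real.pi_pos.ne'
  generalize (∫ t : ℝ, Φ (b + t * I) / (b + t * I)) = R at h6 ⊢
  generalize (∫ t : ℝ, Φ (a + t * I) / (a + t * I)) = L at h6 ⊢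
  have h9 : (R - L) / (2 * Real.pi) = F 0 := by
    rw [← sub_eq_zero.1 h6]
    push_cast
    ring
  rw [← h9]
  field_simp

/-- the double pole of the weight itself -/
theorem weight_double {a b : ℝ} (ha : a < 0) (hb : 0 < b) :
    (∫ t : ℝ, cexp ((b + t * I) ^ 2) / (b + t * I) ^ 2) =
      ∫ t : ℝ, cexp ((a + t * I) ^ 2) / (a + t * I) ^ 2 := by
  have hone : ∀ x y : ℝ, 0 < x → x ≤ y → (∫ t : ℝ, cexp ((y + t * I) ^ 2) / (y + t * I) ^ 2) =
      ∫ t : ℝ, cexp ((x + t * I) ^ 2) / (x + t * I) ^ 2 := by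
    intro x y hx hxy
    have h1 : Str (fun s => (s ^ 2)⁻¹) x y := by
      have hne : ∀ s : ℂ, x ≤ s.re → s ≠ 0 := fun s hs h0 => by
        rw [h0] at hs
        simp at hs
        linarith
      refine ⟨fun s hs _ => DifferentiableAt.inv (by fun_prop) (pow_ne_zero _ (hne s hs)),
        (x ^ 2)⁻¹, 0, fun s hs _ => ?_⟩
      rw [Real.rpow_zero, mul_one, norm_inv, norm_pow]
      refine inv_anti₀ (by positivity) (pow_le_pow_left₀ hx.le ?_ 2)
      exact hs.trans ((le_abs_self _).trans (Complex.abs_re_le_norm s))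
    have h2 := h1.shift hxy
    simp only [div_eq_mul_inv, mul_comm (cexp _)]
    exact h2
  have hsym : (∫ t : ℝ, cexp ((a + t * I) ^ 2) / (a + t * I) ^ 2) =
      ∫ t : ℝ, cexp (((-a : ℝ) + t * I) ^ 2) / ((-a : ℝ) + t * I) ^ 2 := by
    rw [← integral_neg_eq_self (fun t : ℝ => cexp (((-a : ℝ) + t * I) ^ 2) /
      ((-a : ℝ) + t * I) ^ 2)]
    refine integral_congr_ae (Eventually.of_forall fun t => ?_)
    have h1 : (((-a : ℝ) : ℂ) + ((-t : ℝ) : ℂ) * I) ^ 2 = ((a : ℂ) + t * I) ^ 2 := by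
      push_cast
      ring
    simp only [h1]
  rw [hsym]
  rcases le_total b (-a) with h | h
  · exact (hone b (-a) hb h).symm
  · exact hone (-a) b (by linarith) h

/-- the divided difference -/
theorem Str.dslope {F : ℂ → ℂ} {a b : ℝ} (h : Str F a b) (ha : a < 0) (hb : 0 < b) :
    Str (dslope F 0) a b := by
  have hnhds : {s : ℂ | a < s.re ∧ s.re < b} ∈ 𝓝 (0 : ℂ) := by
    refine IsOpen.mem_nhds ?_ (by simpa using ⟨ha, hb⟩)
    exact (isOpen_lt continuous_const Complex.continuous_re).inter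
      (isOpen_lt Complex.continuous_re continuous_const)
  have hdiff : ∀ s : ℂ, a ≤ s.re → s.re ≤ b → DifferentiableAt ℂ (_root_.dslope F 0) s := by
    intro s h1 h2
    rcases eq_or_ne s 0 with h0 | h0
    · subst h0
      have h3 := (Complex.differentiableOn_dslope hnhds).2
        (fun s (hs : a < s.re ∧ s.re < b) =>
          (h.diff s hs.1.le hs.2.le).differentiableWithinAt)
      exact h3.differentiableAt hnhds
    · exact (differentiableAt_dslope_of_ne h0).2 (h.diff s h1 h2)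
  refine ⟨hdiff, ?_⟩
  obtain ⟨C, A, hC⟩ := h.bd
  -- the compact part
  set Kc : Set ℂ := {s : ℂ | a ≤ s.re ∧ s.re ≤ b ∧ |s.im| ≤ 1} with hKc
  have hcomp : IsCompact Kc := by
    have h1 : Kc = (Icc a b) ×ℂ (Icc (-1) 1) := by
      ext s
      rw [hKc, mem_reProdIm]
      simp only [mem_ofPred_eq, mem_Icc, abs_le]
      tauto
    rw [h1]
    exact isCompact_Icc.reProdIm isCompact_Icc
  obtain ⟨M, hM⟩ := hcomp.exists_bound_of_continuousOn
    (f := _root_.dslope F 0) fun s hs => (hdiff s hs.1 hs.2.1).continuousAt.continuousWithinAt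
  refine ⟨|M| + |C| + ‖F 0‖, |A|, fun s h1 h2 => ?_⟩
  have hone : (1 : ℝ) ≤ (1 + |s.im|) ^ |A| :=
    Real.one_le_rpow (by linarith [abs_nonneg s.im]) (abs_nonneg A)
  rcases le_or_gt |s.im| 1 with h3 | h3
  · have h4 := hM s ⟨h1, h2, h3⟩
    calc ‖_root_.dslope F 0 s‖ ≤ |M| := h4.trans (le_abs_self M)
      _ ≤ (|M| + |C| + ‖F 0‖) * 1 := by
          linarith [abs_nonneg C, norm_nonneg (F 0)]
      _ ≤ _ := mul_le_mul_of_nonneg_left hone (by positivity)
  · have h0 : s ≠ 0 := by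
      rintro rfl
      simp at h3
      linarith
    have h4 : 1 ≤ ‖s‖ := h3.le.trans (Complex.abs_im_le_norm s)
    rw [dslope_of_ne _ h0, slope_def_field, sub_zero, norm_div]
    have h5 : ‖F s - F 0‖ ≤ (|C| + ‖F 0‖) * (1 + |s.im|) ^ |A| := by
      have h6 : (1 + |s.im|) ^ A ≤ (1 + |s.im|) ^ |A| :=
        Real.rpow_le_rpow_of_exponent_le (by linarith) (le_abs_self A)
      have h7 : ‖F s‖ ≤ |C| * (1 + |s.im|) ^ |A| := by
        refine (hC s h1 h2).trans ?_
        calc C * (1 + |s.im|) ^ A ≤ |C| * (1 + |s.im|) ^ A :=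
              mul_le_mul_of_nonneg_right (le_abs_self C) (by positivity)
          _ ≤ _ := mul_le_mul_of_nonneg_left h6 (abs_nonneg C)
      have h8 : ‖F 0‖ ≤ ‖F 0‖ * (1 + |s.im|) ^ |A| :=
        le_mul_of_one_le_right (norm_nonneg _) hone
      calc ‖F s - F 0‖ ≤ ‖F s‖ + ‖F 0‖ := norm_sub_le _ _
        _ ≤ _ := by linarith
    calc ‖F s - F 0‖ / ‖s‖ ≤ ‖F s - F 0‖ := div_le_self (norm_nonneg _) h4
      _ ≤ (|C| + ‖F 0‖) * (1 + |s.im|) ^ |A| := h5
      _ ≤ _ := mul_le_mul_of_nonneg_right (by linarith [abs_nonneg M]) (by positivity)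

/-- a double pole -/
theorem Str.double {F : ℂ → ℂ} {a b : ℝ} (h : Str F a b) (ha : a < 0) (hb : 0 < b) :
    (∫ t : ℝ, F (b + t * I) * (cexp ((b + t * I) ^ 2) / (b + t * I) ^ 2)) -
      (∫ t : ℝ, F (a + t * I) * (cexp ((a + t * I) ^ 2) / (a + t * I) ^ 2)) =
        2 * Real.pi * deriv F 0 := by
  have hab : a ≤ b := (ha.trans hb).le
  have hD := h.dslope ha hb
  have hconst : Str (fun _ : ℂ => (1 : ℂ)) a b :=
    ⟨fun s _ _ => by fun_prop, 1, 0, fun s _ _ => by simp⟩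
  have key : ∀ c : ℝ, a ≤ c → c ≤ b → c ≠ 0 →
      (∫ t : ℝ, F (c + t * I) * (cexp ((c + t * I) ^ 2) / (c + t * I) ^ 2)) =
      F 0 * (∫ t : ℝ, cexp ((c + t * I) ^ 2) / (c + t * I) ^ 2) +
        ∫ t : ℝ, _root_.dslope F 0 (c + t * I) * (cexp ((c + t * I) ^ 2) / (c + t * I)) := by
    intro c h1 h2 hc
    have i1 : Integrable (fun t : ℝ => cexp ((c + t * I) ^ 2) / (c + t * I) ^ 2) := by
      simpa using hconst.int2 h1 h2 hc
    rw [← integral_const_mul, ← integral_add (i1.const_mul _) (hD.int1 h1 h2 hc)]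
    refine integral_congr_ae (Eventually.of_forall fun t => ?_)
    have hne := line_ne hc t
    simp only []
    rw [dslope_of_ne _ hne, slope_def_field, sub_zero]
    field_simp
    ring
  rw [key b hab le_rfl hb.ne', key a le_rfl hab ha.ne, weight_double ha hb]
  have h1 := hD.simple ha hb
  rw [dslope_same] at h1
  linear_combination h1

theorem pf_SH : T_SH := by
  intro F a b hab hd hb
  have h : Str F a b := ⟨hd, hb⟩
  refine ⟨⟨?_, ?_, h.shift hab⟩, fun ha hb => ⟨h.int1 hab le_rfl hb.ne', h.int1 le_rfl hab ha.ne,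
    h.simple ha hb⟩, fun ha hb => ⟨h.int2 hab le_rfl hb.ne', h.int2 le_rfl hab ha.ne,
    h.double ha hb⟩⟩
  · simpa using h.int hab le_rfl (g := fun _ => 1) continuous_const (B := 1) (by simp)
  · simpa using h.int le_rfl hab (g := fun _ => 1) continuous_const (B := 1) (by simp)

end Pool.Agent.H56.CV
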