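import Pool.Agent.H37.CV.Targets
import Pool.Agent.H23.RCI.Inst

/-!
# Basic facts for the approximate functional equations
-/

set_option autoImplicit false

open NumberField NumberField.InfinitePlace Complex MeasureTheory Set Filter Topology

namespace Pool.Agent.H56.CV

open Pool.Agent.H37.CV Pool.Agent.H28.RC Pool.Agent.H25.HK
open Pool.Agent.H23.RCI (grow_up cc cc_diff cc_eq)

/-- interchange of the sum with a vertical integral -/
theorem swap {ι : Type} [Countable ι] (c : ι → ℂ) (x : ι → ℝ) (hx : ∀ i, 0 < x i) (b : ℝ)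
    (hs : Summable fun i => ‖c i‖ * x i ^ (-b)) (g : ℝ → ℂ) (hg : Integrable g) :
    HasSum (fun i => c i * ∫ t : ℝ, g t * (x i : ℂ) ^ (-((b : ℂ) + t * I)))
      (∫ t : ℝ, g t * ∑' i, c i * (x i : ℂ) ^ (-((b : ℂ) + t * I))) := by
  have hn : ∀ (i : ι) (t : ℝ), ‖(x i : ℂ) ^ (-((b : ℂ) + t * I))‖ = x i ^ (-b) := by
    intro i t
    rw [Complex.norm_cpow_eq_rpow_re_of_pos (hx i)]
    simp
  have hsn : ∀ t : ℝ, Summable fun i => c i * (x i : ℂ) ^ (-((b : ℂ) + t * I)) := by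
    intro t
    refine Summable.of_norm (hs.congr fun i => ?_)
    rw [norm_mul, hn]
  have hc : ∀ i : ι, Continuous fun t : ℝ => (x i : ℂ) ^ (-((b : ℂ) + t * I)) := by
    intro i
    refine Continuous.const_cpow (by fun_prop) (Or.inl ?_)
    exact_mod_cast (hx i).ne'
  have key := hasSum_integral_of_dominated_convergence (μ := (volume : Measure ℝ))
    (F := fun i t => c i * (g t * (x i : ℂ) ^ (-((b : ℂ) + t * I))))
    (f := fun t => g t * ∑' i, c i * (x i : ℂ) ^ (-((b : ℂ) + t * I)))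
    (fun i t => (‖c i‖ * x i ^ (-b)) * ‖g t‖) (fun i => ?_) (fun i => ?_) ?_ ?_ ?_
  · have h1 : ∀ i, (∫ t : ℝ, c i * (g t * (x i : ℂ) ^ (-((b : ℂ) + t * I)))) =
        c i * ∫ t : ℝ, g t * (x i : ℂ) ^ (-((b : ℂ) + t * I)) := fun i =>
      integral_const_mul _ _
    simpa only [h1] using key
  · exact (hg.aestronglyMeasurable.mul (hc i).aestronglyMeasurable).const_mul _
  · refine Eventually.of_forall fun t => ?_
    rw [norm_mul, norm_mul, hn]
    exact (by ring : ‖c i‖ * (‖g t‖ * x i ^ (-b)) = (‖c i‖ * x i ^ (-b)) * ‖g t‖).le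
  · exact Eventually.of_forall fun t => hs.mul_right _
  · simp only [tsum_mul_right]
    exact hg.norm.const_mul _
  · refine Eventually.of_forall fun t => ?_
    have h2 := (hsn t).hasSum.mul_left (g t)
    have h3 : (fun i => g t * (c i * (x i : ℂ) ^ (-((b : ℂ) + t * I)))) =
        fun i => c i * (g t * (x i : ℂ) ^ (-((b : ℂ) + t * I))) := by
      funext i
      ring
    rw [h3] at h2
    exact h2

section

variable {K : Type} [Field K] [NumberField K]

theorem nm_pos (I : NI K) : 0 < nm I.1 := by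
  unfold nm
  have h : Ideal.absNorm I.1 ≠ 0 := by
    rw [Ne, Ideal.absNorm_eq_zero_iff]
    exact I.2
  exact_mod_cast Nat.pos_of_ne_zero h

theorem NI_countable (hZK : T_ZK) : Countable (NI K) := by
  obtain ⟨E, -, h, -⟩ := hZK K
  have h1 := (h 2 (by simp)).1.countable_support
  have h2 : Function.support (fun I : NI K => ‖((nm I.1 : ℝ) : ℂ) ^ (-(2 : ℂ))‖) = Set.univ := by
    ext I
    have h3 := Real.rpow_pos_of_pos (nm_pos I) (-(2 : ℂ)).re
    rw [← Complex.norm_cpow_eq_rpow_re_of_pos (nm_pos I)] at h3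
    simp only [Function.mem_support, mem_univ, iff_true]
    exact h3.ne'
  rwa [h2, Set.countable_univ_iff] at h1

theorem nm_summable (hZK : T_ZK) {σ : ℝ} (hσ : 1 < σ) :
    Summable fun I : NI K => nm I.1 ^ (-σ) := by
  obtain ⟨E, -, h, -⟩ := hZK K
  refine (h σ (by simpa using hσ)).1.congr fun I => ?_
  rw [Complex.norm_cpow_eq_rpow_re_of_pos (nm_pos I)]
  simp

theorem Lc_bound (hZK : T_ZK) (χ : RCC K) {s : ℂ} (hs : 1 < s.re) :
    ‖Lc χ s‖ ≤ ∑' I : NI K, nm I.1 ^ (-s.re) := by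
  have h1 : ∀ I : NI K, ‖χ.ψ I.1 * (Ideal.absNorm I.1 : ℂ) ^ (-s)‖ ≤ nm I.1 ^ (-s.re) := by
    intro I
    rw [norm_mul]
    have h2 : ‖(Ideal.absNorm I.1 : ℂ) ^ (-s)‖ = nm I.1 ^ (-s.re) := by
      have h3 := Complex.norm_cpow_eq_rpow_re_of_pos (nm_pos I) (-s)
      simpa [nm] using h3
    rw [h2]
    exact mul_le_of_le_one_left (Real.rpow_nonneg (nm_pos I).le _) (rcc_norm_le χ I.1)
  exact tsum_of_norm_bounded (nm_summable hZK hs).hasSum h1

/-- polynomial growth of the continuation in vertical strips -/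
theorem poly_bd (hHE : T_HEc) (hGW : T_GWc) (χ : RCC K) {L : ℂ → ℂ} (hL : IsEnt χ L) (b : ℝ) :
    ∃ C A : ℝ, ∀ s : ℂ, |s.re| ≤ b → ‖L s‖ ≤ C * (1 + |s.im|) ^ A := by
  obtain ⟨C₁, hC₁, h1⟩ := grow_up hHE hGW χ hL.1 hL.2 b
  obtain ⟨C₂, hC₂, h2⟩ := grow_up hHE hGW χ.bar (cc_diff hL.1) (cc_eq χ hL.2) b
  obtain ⟨C₃, h3⟩ := (isCompact_closedBall (0 : ℂ) (b + 1)).exists_bound_of_continuousOn
    hL.1.continuous.continuousOn
  refine ⟨C₁ + C₂ + |C₃|, C₁ + C₂, fun s hs => ?_⟩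
  have hu : 0 ≤ |s.im| := abs_nonneg _
  have hone : (1 : ℝ) ≤ (1 + |s.im|) ^ (C₁ + C₂) :=
    Real.one_le_rpow (by linarith) (by linarith)
  have hpow : ∀ y D : ℝ, 0 ≤ y → y ≤ 1 + |s.im| → 0 < D → D ≤ C₁ + C₂ →
      y ^ D ≤ (1 + |s.im|) ^ (C₁ + C₂) := by
    intro y D hy0 hy hD hDC
    exact (Real.rpow_le_rpow hy0 hy hD.le).trans
      (Real.rpow_le_rpow_of_exponent_le (by linarith) hDC)
  have hP : 0 ≤ (1 + |s.im|) ^ (C₁ + C₂) := by linarith
  have hC₃ : 0 ≤ |C₃| := abs_nonneg _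
  rcases le_or_gt 1 s.im with him | him
  · have h4 := h1 s hs him
    have h5 := hpow s.im C₁ (by linarith) (by rw [abs_of_nonneg (by linarith)]; linarith) hC₁
      (by linarith)
    calc ‖L s‖ ≤ C₁ * s.im ^ C₁ := h4
      _ ≤ C₁ * (1 + |s.im|) ^ (C₁ + C₂) := mul_le_mul_of_nonneg_left h5 hC₁.le
      _ ≤ _ := mul_le_mul_of_nonneg_right (by linarith) hP
  · rcases le_or_gt s.im (-1) with him' | him'
    · have h4 := h2 ((starRingEnd ℂ) s) (by simpa using hs) (by simp; linarith)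
      have h5 : ‖cc L ((starRingEnd ℂ) s)‖ = ‖L s‖ := by
        unfold cc
        rw [Complex.conj_conj, Complex.norm_conj]
      rw [h5, conj_im] at h4
      have h6 := hpow (-s.im) C₂ (by linarith) (by rw [abs_of_nonpos (by linarith)]; linarith)
        hC₂ (by linarith)
      calc ‖L s‖ ≤ C₂ * (-s.im) ^ C₂ := h4
        _ ≤ C₂ * (1 + |s.im|) ^ (C₁ + C₂) := mul_le_mul_of_nonneg_left h6 hC₂.le
        _ ≤ _ := mul_le_mul_of_nonneg_right (by linarith) hP
    · have h4 : ‖s‖ ≤ b + 1 := by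
        refine (Complex.norm_le_abs_re_add_abs_im s).trans ?_
        have : |s.im| ≤ 1 := abs_le.2 ⟨him'.le, him.le⟩
        linarith
      have h5 := h3 s (by simpa [mem_closedBall_zero_iff] using h4)
      calc ‖L s‖ ≤ |C₃| := h5.trans (le_abs_self _)
        _ ≤ (C₁ + C₂ + |C₃|) * 1 := by linarith
        _ ≤ _ := mul_le_mul_of_nonneg_left hone (by linarith)

/-- the entire continuation is unique -/
theorem ent_unique (χ : RCC K) {Z Z' : ℂ → ℂ} (h : IsEnt χ Z) (h' : IsEnt χ Z') : Z = Z' := by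
  have h1 : AnalyticOnNhd ℂ Z univ := h.1.differentiableOn.analyticOnNhd isOpen_univ
  have h2 : AnalyticOnNhd ℂ Z' univ := h'.1.differentiableOn.analyticOnNhd isOpen_univ
  refine h1.eq_of_eventuallyEq h2 (z₀ := 2) ?_
  have h4 : {z : ℂ | 1 < z.re} ∈ 𝓝 (2 : ℂ) :=
    (isOpen_lt continuous_const continuous_re).mem_nhds (by simp)
  filter_upwards [h4] with z hz
  rw [h.2 z hz, h'.2 z hz]

end

theorem Gammaℂ_conj (s : ℂ) : Gammaℂ ((starRingEnd ℂ) s) = (starRingEnd ℂ) (Gammaℂ s) := by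
  rw [Gammaℂ_def, Gammaℂ_def, map_mul, map_mul, Gamma_conj, map_ofNat]
  congr 2
  have h := cpow_conj (2 * (Real.pi : ℂ)) (-s) (by
    have : (2 * (Real.pi : ℂ)) = ((2 * Real.pi : ℝ) : ℂ) := by push_cast; ring
    rw [this, Complex.arg_ofReal_of_nonneg (by positivity)]
    exact Real.pi_pos.ne)
  rw [map_mul, conj_ofReal, map_ofNat, map_neg] at h
  exact h

theorem norm_Gammaℂ_conj (s : ℂ) : ‖Gammaℂ ((starRingEnd ℂ) s)‖ = ‖Gammaℂ s‖ := by
  rw [Gammaℂ_conj, Complex.norm_conj]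

end Pool.Agent.H56.CV
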